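import Pool.Agent.Helper26_BSN.Defs2

/-!
# ELM: `Σ_{j'}` relations on the model are sections of extensions of `Σ_{j'}` relations
-/

namespace Pool.Agent.BSN.H75

open Filter Cardinal Pool.Agent.BSig Pool.Agent.BSN

/-- exchange of the first two blocks -/
def elmIdx (i l k : ℕ) : Fin (l + (i + k)) → Fin (i + (l + k)) :=
  Fin.addCases (fun a => Fin.natAdd i (Fin.castAdd k a))
    (Fin.addCases (fun b => Fin.castAdd (l + k) b) (fun d => Fin.natAdd i (Fin.natAdd l d)))

theorem elm_append {X : Type} {i l k : ℕ} (w : Fin i → X) (c : Fin l → X) (v : Fin k → X)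
    (t : Fin (l + (i + k))) :
    Fin.append w (Fin.append c v) (elmIdx i l k t) = Fin.append c (Fin.append w v) t := by
  refine Fin.addCases (fun a => ?_) (fun u => ?_) t
  · unfold elmIdx
    rw [Fin.addCases_left, Fin.append_right, Fin.append_left, Fin.append_left]
  · refine Fin.addCases (fun b => ?_) (fun d => ?_) u
    · unfold elmIdx
      rw [Fin.addCases_right, Fin.addCases_left, Fin.append_left, Fin.append_right,
        Fin.append_left]
    · unfold elmIdx
      rw [Fin.addCases_right, Fin.addCases_right, Fin.append_right, Fin.append_right,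
        Fin.append_right, Fin.append_right]

theorem elm (h0 : Elem0) (h1 : StepStmt) (h2 : SigClosed) : ElemStmt := by
  intro j j'
  induction j' with
  | zero => exact fun _ k P hP => h0 (towj j) k P hP
  | succ j' ih =>
    rintro hj k P ⟨i, Q, hQ, hPQ⟩
    obtain ⟨l, c, S, hS, hQS⟩ := ih (by omega) (i + k) Q hQ
    have hS2 : IsSigma j' (fun x : Fin (i + (l + k)) → ℕ => S (fun t => x (elmIdx i l k t))) :=
      (h2 ℕ).1 j' _ _ S hS (fun t x => x (elmIdx i l k t)) (fun t => IsTerm.var _)
    refine ⟨l, c, fun y => ∃ w : Fin i → ℕ, ¬ S (fun t => Fin.append w y (elmIdx i l k t)),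
      ⟨i, _, hS2, fun _ => Iff.rfl⟩, fun v => ?_⟩
    rw [hPQ]
    have h3 := h1 j j' (by omega) i (l + k) _ hS2 (Fin.append c v)
    refine Iff.trans ?_ h3.symm
    refine exists_congr fun w => not_congr ?_
    rw [hQS]
    unfold starR
    simp only [elm_append]

end Pool.Agent.BSN.H75
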