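import Pool.Agent.Helper26_BSN.Stmts
import Pool.Agent.Helper26_BSN.DerJ

/-!
# CoiStmt (squad BSN, MP_b3d4e2_lc): the complement of the standard part is `Σ₁(B)`
-/

namespace Pool.Agent.BSN.H75

open Filter Cardinal Pool.Agent.BSig Pool.Agent.BSN
open Pool.Agent.BSN.H92 (two_inj odd_inj par le_two mem_jn_even mem_jn_odd parity t2 t21
  exists_lits)

variable {τ : Tower}

theorem coi_mem_pow2 {x y : (MMt τ)} : Mem x (pow2 y) ↔ x = y := by
  constructor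
  · intro h
    obtain ⟨f, hf, rfl⟩ := exists_mk x; obtain ⟨g, hg, rfl⟩ := exists_mk y
    rw [pow2_mk, mem_mk] at h
    rw [mk_eq]
    filter_upwards [h] with n hn
    rw [Nat.testBit_two_pow, decide_eq_true_eq] at hn
    exact hn.symm
  · rintro rfl
    obtain ⟨f, hf, rfl⟩ := exists_mk x
    rw [pow2_mk, mem_mk]
    exact Eventually.of_forall fun n => by rw [Nat.testBit_two_pow]; simp

theorem coi_sgn0 {y : (MMt τ)} : decode (pow2 y) ⊆ sgn (omega (MMt τ)) 0 ↔ Infl y := by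
  constructor
  · intro h
    have h1 : y ∈ sgn (omega (MMt τ)) 0 := h (coi_mem_pow2.2 rfl)
    rcases h1 with ⟨h2, _⟩ | ⟨_, h2⟩
    · exact absurd h2 PAExp.zero_ne_one'
    · by_contra hc
      exact h2 (H92.mem_omega.2 hc)
  · intro h x hx
    have hx' : x = y := coi_mem_pow2.1 hx
    rw [hx']
    exact Or.inr ⟨rfl, fun hc => H92.mem_omega.1 hc h⟩

/-- the matrix -/
def coiPsi (θ : (Fin 5 → (MMt τ)) → Prop) (a L w y F : (MMt τ)) : Prop :=
  ∃ p, p ≤ a ∧ ∃ q, q ≤ a ∧ (θ ![w, pow2 y, 0, p, q] ∧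
    (∀ x, x ≤ p → Mem x p → ∃ z, z ≤ x ∧
      ((x = 2 * z ∧ Mem (2 * z + 1) F) ∨ (x = 2 * z + 1 ∧ Mem z L))) ∧
    (∀ x, x ≤ q → Mem x q → ∃ z, z ≤ x ∧
      ((x = 2 * z ∧ Mem (2 * z) F) ∨ (x = 2 * z + 1 ∧ ¬ Mem z L))))

theorem coiPsi_delta {θ : (Fin 5 → (MMt τ)) → Prop} (hθ : IsDelta0 θ) (a L : (MMt τ)) :
    IsDelta0 (fun v : Fin 3 → (MMt τ) => coiPsi θ a L (v 0) (v 1) (v 2)) := by
  refine IsDelta0.ex (IsTerm.param a) ?_
  refine IsDelta0.ex (IsTerm.param a) ?_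
  -- variables: 0 = q, 1 = p, 2 = w, 3 = y, 4 = F
  refine IsDelta0.and ?_ (IsDelta0.and ?_ ?_)
  · refine (hθ.subst (F := ![fun v : Fin 5 → (MMt τ) => v 2, fun v => pow2 (v 3), fun _ => 0,
      fun v => v 1, fun v => v 0]) ?_).congr fun v => ?_
    · intro i; fin_cases i
      · exact IsTerm.var 2
      · exact (IsTerm.var 3).pow2
      · exact IsTerm.param 0
      · exact IsTerm.var 1
      · exact IsTerm.var 0
    · have : (![Fin.tail (Fin.tail v) 0, pow2 (Fin.tail (Fin.tail v) 1), 0,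
        Fin.tail v 0, v 0] : Fin 5 → (MMt τ)) =
        fun i => (![fun v : Fin 5 → (MMt τ) => v 2, fun v => pow2 (v 3), fun _ => 0,
          fun v => v 1, fun v => v 0] : Fin 5 → (Fin 5 → (MMt τ)) → (MMt τ)) i v := by
        funext i; fin_cases i <;> rfl
      rw [this]
  · refine IsDelta0.all (IsTerm.var 1) ?_
    refine (IsDelta0.mem (IsTerm.var 0) (IsTerm.var 2)).imp ?_
    refine IsDelta0.ex (IsTerm.var 0) ?_
    refine IsDelta0.or (IsDelta0.and (IsDelta0.eq (IsTerm.var 1) (t2 (IsTerm.var 0)))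
      (IsDelta0.mem (t21 (IsTerm.var 0)) (IsTerm.var 6))) ?_
    exact IsDelta0.and (IsDelta0.eq (IsTerm.var 1) (t21 (IsTerm.var 0)))
      (IsDelta0.mem (IsTerm.var 0) (IsTerm.param L))
  · refine IsDelta0.all (IsTerm.var 0) ?_
    refine (IsDelta0.mem (IsTerm.var 0) (IsTerm.var 1)).imp ?_
    refine IsDelta0.ex (IsTerm.var 0) ?_
    refine IsDelta0.or (IsDelta0.and (IsDelta0.eq (IsTerm.var 1) (t2 (IsTerm.var 0)))
      (IsDelta0.mem (t2 (IsTerm.var 0)) (IsTerm.var 6))) ?_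
    exact IsDelta0.and (IsDelta0.eq (IsTerm.var 1) (t21 (IsTerm.var 0)))
      (IsDelta0.mem (IsTerm.var 0) (IsTerm.param L)).not

theorem coi_exists_Lj (j : ℕ) : ∃ e : (MMt τ), ∀ x, Mem x e ↔ ∃ l : ℕ, l < j ∧ x = pr (l : (MMt τ)) ((aat τ) l) := by
  classical
  obtain ⟨e, he⟩ := exists_code_finset ((Finset.range j).image (fun l : ℕ => pr (l : (MMt τ)) ((aat τ) l)))
  refine ⟨e, fun x => ?_⟩
  rw [he, Finset.mem_image]
  constructor
  · rintro ⟨l, hl, rfl⟩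
    exact ⟨l, Finset.mem_range.1 hl, rfl⟩
  · rintro ⟨l, hl, rfl⟩
    exact ⟨l, Finset.mem_range.2 hl, rfl⟩

theorem coi (h1 : InfStmt τ) (_h2 : CodeStmt τ) : CoiStmt τ := by
  rintro B ⟨Φ, hΦ, h⟩
  obtain ⟨θ, hθ, hθ2⟩ := Sig1.of_isSigma hΦ
  choose L hL using fun j : ℕ => coi_exists_Lj (τ := τ) j
  have key : ∀ y : (MMt τ), Infl y ↔ ∃ p q w : (MMt τ), θ ![w, pow2 y, 0, p, q] ∧
      decode p ⊆ jn B (LL τ) ∧ decode q ⊆ (jn B (LL τ))ᶜ := by
    intro y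
    rw [← coi_sgn0, h (pow2 y) 0 (Or.inl rfl)]
    refine exists_congr fun p => exists_congr fun q => ?_
    rw [hθ2]
    exact exists_and_right.symm
  -- soundness
  have sound : ∀ (j : ℕ) (w y F : (MMt τ)), coiPsi θ ((aat τ) j) (L j) w y F → Tr B F → Infl y := by
    rintro j w y F ⟨p, hp, q, hq, hth, hp2, hq2⟩ hT
    rw [key]
    refine ⟨p, q, w, hth, fun x hx => ?_, fun x hx => ?_⟩
    · obtain ⟨z, -, ⟨rfl, hz⟩ | ⟨rfl, hz⟩⟩ := hp2 x (mem_lt hx).le hx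
      · exact mem_jn_even.2 ((hT z).1 hz)
      · obtain ⟨l, -, e⟩ := (hL j z).1 hz
        exact mem_jn_odd.2 ⟨l, e⟩
    · obtain ⟨z, -, ⟨rfl, hz⟩ | ⟨rfl, hz⟩⟩ := hq2 x (mem_lt hx).le hx
      · exact fun hc => (hT z).2 hz (mem_jn_even.1 hc)
      · intro hc
        obtain ⟨l, e⟩ := mem_jn_odd.1 hc
        apply hz
        refine (hL j z).2 ⟨l, ?_, e⟩
        by_contra hlj
        rw [not_lt] at hlj
        have h5 : (aat τ) l ≤ z := by rw [e]; exact le_pr_right _ _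
        have h6 : z < (aat τ) j :=
          lt_of_le_of_lt ((le_two z).trans (le_add_right' _ _)) (lt_of_lt_of_le (mem_lt hx) hq)
        exact absurd (lt_of_le_of_lt ((aa_mono hlj).trans h5) h6) (lt_irrefl _)
  -- completeness
  have compl : ∀ y : (MMt τ), Infl y → ∃ (j : ℕ) (w F : (MMt τ)),
      coiPsi θ ((aat τ) j) (L j) w y F ∧ Tr B F := by
    intro y hy
    obtain ⟨p, q, w, hth, hp, hq⟩ := (key y).1 hy
    obtain ⟨F, hF1, hF2⟩ := exists_lits p q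
    obtain ⟨l1, e1⟩ := exists_le_aa p
    obtain ⟨l2, e2⟩ := exists_le_aa q
    refine ⟨max l1 l2, w, F, ⟨p, e1 _ (le_max_left _ _), q, e2 _ (le_max_right _ _), hth, ?_, ?_⟩,
      fun z => ⟨fun hz => ?_, fun hz => ?_⟩⟩
    · intro x _ hx
      rcases parity x with ⟨z, rfl⟩ | ⟨z, rfl⟩
      · exact ⟨z, le_two z, Or.inl ⟨rfl, (hF1 z).2 hx⟩⟩
      · refine ⟨z, (le_two z).trans (le_add_right' _ _), Or.inr ⟨rfl, ?_⟩⟩
        obtain ⟨l, e⟩ := mem_jn_odd.1 (hp hx)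
        refine (hL _ z).2 ⟨l, ?_, e⟩
        by_contra hlj
        rw [not_lt] at hlj
        have h5 : (aat τ) l ≤ z := by rw [e]; exact le_pr_right _ _
        have h6 : z < (aat τ) (max l1 l2) :=
          lt_of_le_of_lt ((le_two z).trans (le_add_right' _ _))
            (lt_of_lt_of_le (mem_lt hx) (e1 _ (le_max_left _ _)))
        exact absurd (lt_of_le_of_lt ((aa_mono hlj).trans h5) h6) (lt_irrefl _)
    · intro x _ hx
      rcases parity x with ⟨z, rfl⟩ | ⟨z, rfl⟩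
      · exact ⟨z, le_two z, Or.inl ⟨rfl, (hF2 z).2 hx⟩⟩
      · refine ⟨z, (le_two z).trans (le_add_right' _ _), Or.inr ⟨rfl, fun hc => ?_⟩⟩
        obtain ⟨l, -, e⟩ := (hL _ z).1 hc
        exact hq hx (mem_jn_odd.2 ⟨l, e⟩)
    · exact mem_jn_even.1 (hp ((hF1 z).1 hz))
    · exact fun hc => hq ((hF2 z).1 hz) (mem_jn_even.2 hc)
  -- some level is enough
  have lev : ∃ j : ℕ, ∀ y : (MMt τ), Infl y → ∃ y' w F : (MMt τ), y' ≤ y ∧
      coiPsi θ ((aat τ) j) (L j) w y' F ∧ Tr B F := by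
    by_contra hc
    push Not at hc
    choose y hy hy2 using hc
    obtain ⟨z, hz, hz2⟩ := h1 y hy
    obtain ⟨j, w, F, h5, h6⟩ := compl z hz
    exact hy2 j z w F (hz2 j) h5 h6
  obtain ⟨j, hj⟩ := lev
  refine ⟨fun v => coiPsi θ ((aat τ) j) (L j) (v 0) (v 1) (v 2), coiPsi_delta hθ _ _, fun y => ?_⟩
  constructor
  · intro hy
    obtain ⟨y', w, F, h5, h6, h7⟩ := hj y hy
    exact ⟨y', w, F, h5, h6, h7⟩
  · rintro ⟨y', w, F, h5, h6, h7⟩
    exact fun n => lt_of_lt_of_le (sound j w y' F h6 h7 n) h5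

end Pool.Agent.BSN.H75
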